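import Pool.Agent.Helper45.CF.GoalsC
import Pool.Agent.Helper34.CAR.Parts
import Pool.Agent.Helper64.CAR.STEP

/-!
Packet CF2-SML (MP_d97caa_an): the small step.
-/

set_option autoImplicit false

open scoped ComplexOrder ZeroAtInfty Topology NNReal
open TopologicalSpace

namespace Pool.Agent.Helper30.CF2.SML

open Pool.Agent.Helper34.CAR Pool.Agent.Helper39.CR Pool.Agent.Helper45.CF

/-- The constant functions. -/
noncomputable def cst1 (Y A : Type) [TopologicalSpace Y] [CompactSpace Y] [CStarAlgebra A] :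
    A →⋆ₐ[ℂ] C(Y, A) where
  toFun a := ContinuousMap.const Y a
  map_one' := rfl
  map_mul' _ _ := rfl
  map_zero' := rfl
  map_add' _ _ := rfl
  commutes' _ := rfl
  map_star' _ := rfl

theorem cst1_apply {Y A : Type} [TopologicalSpace Y] [CompactSpace Y] [CStarAlgebra A] (a : A)
    (y : Y) : cst1 Y A a y = a := rfl

theorem t (hPNI : S_PNI) (hUNTI : S_UNTI) (hABF : S_ABF) : S_SML := by
  intro E _ hE F ε hε
  classical
  -- relative property (N)
  have hNU : NU (prE E).inc := hUNTI _ _ (toTwo E) (hPNI E hE)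
  -- the chain
  obtain ⟨m, c, hc0', hcm', hc⟩ := t_HOM E (F.image fun b => b.snd) (ε / 2) (by positivity)
  have hc0 : ∀ x, c 0 x = dX (flip E x) x := hc0'
  have hcm : ∀ x, c m x = 0 := hcm'
  obtain ⟨J, fJ, dJ, s, w, hw1, hw2, hw⟩ := hABF (Unitization ℂ C₀(ℝ, E)) (Unitization ℂ (Two E))
    (Unitization ℂ C₀(ℝ, E)) Unit (Fin 2) (prE E).inc hNU m
    (fun i => (cst1 Unit (Mt (Fin 2) (Unitization ℂ C₀(ℝ, E)))).comp
      (Unitization.starLift (c i))) F ε hε
    (by
      intro b hb j hj
      have h1 := hc b.snd (Finset.mem_image_of_mem _ hb) j hj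
      have h2 : (cst1 Unit (Mt (Fin 2) (Unitization ℂ C₀(ℝ, E)))).comp
          (Unitization.starLift (c j)) b -
          (cst1 Unit (Mt (Fin 2) (Unitization ℂ C₀(ℝ, E)))).comp
          (Unitization.starLift (c (j + 1))) b =
          cst1 Unit (Mt (Fin 2) (Unitization ℂ C₀(ℝ, E))) (c j b.snd - c (j + 1) b.snd) := by
        rw [StarAlgHom.comp_apply, StarAlgHom.comp_apply, ← map_sub,
          Pool.Agent.Helper64.CAR.starLift_val, Pool.Agent.Helper64.CAR.starLift_val,
          add_sub_add_left_eq_sub]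
      rw [h2]
      exact (NonUnitalStarAlgHom.norm_apply_le
        (cst1 Unit (Mt (Fin 2) (Unitization ℂ C₀(ℝ, E)))) _).trans h1)
  refine ⟨J, fJ, dJ, s, w (), ?_, ?_, ?_⟩
  · exact DFunLike.congr_fun hw1 ()
  · exact DFunLike.congr_fun hw2 ()
  · intro b hb
    have h3 := hw b hb ()
    -- the first matrix
    have e1 : (osum (Sys2.Ktriv (prE E).θ)
        (scl (Unitization ℂ C₀(ℝ, E)) (s.comp (prE E).inc)) b) =
        bd (((cst1 Unit (Mt (Fin 2) (Unitization ℂ C₀(ℝ, E)))).comp
          (Unitization.starLift (c 0))) b ())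
          (scl (Unitization ℂ C₀(ℝ, E)) (s.comp (prE E).inc) b) := by
      rw [osum_bd]
      congr 1
      rw [StarAlgHom.comp_apply, cst1_apply]
      refine Mt.ext fun i j => ?_
      rw [Pool.Agent.Helper64.CAR.starLift_val, hc0, Mt.add_apply, Mt.algebraMap_apply,
        Pool.Agent.Helper64.CAR.dX_apply, Sys2.Ktriv_apply]
      have e1 : (prE E).θ b =
          algebraMap ℂ (Unitization ℂ C₀(ℝ, E)) b.fst +
            (flip E b.snd : Unitization ℂ C₀(ℝ, E)) := rfl
      have e2 : b = algebraMap ℂ (Unitization ℂ C₀(ℝ, E)) b.fst +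
          (b.snd : Unitization ℂ C₀(ℝ, E)) := by
        rw [Unitization.algebraMap_eq_inl, Unitization.inl_fst_add_inr_snd_eq]
      by_cases h1 : i = j
      · rw [if_pos h1, if_pos h1, if_pos h1]
        by_cases h2 : i = 0
        · rw [if_pos h2, if_pos h2, e1]
        · rw [if_neg h2, if_neg h2]
          exact e2
      · rw [if_neg h1, if_neg h1, if_neg h1, add_zero]
    -- the second matrix is scalar
    refine ⟨fun p q => match p, q with
      | .inl i, .inl j => if i = j then b.fst else 0
      | .inr i, .inr j => s ((prE E).inc b) i j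
      | _, _ => 0, ?_⟩
    rw [e1]
    have e2 : (Mt.scal (fun p q => match p, q with
      | .inl i, .inl j => if i = j then b.fst else 0
      | .inr i, .inr j => s ((prE E).inc b) i j
      | _, _ => 0) : Mt (Fin 2 ⊕ J) (Unitization ℂ C₀(ℝ, E))) =
        bd (((cst1 Unit (Mt (Fin 2) (Unitization ℂ C₀(ℝ, E)))).comp
          (Unitization.starLift (c m))) b ())
          (scl (Unitization ℂ C₀(ℝ, E)) (s.comp (prE E).inc) b) := by
      refine Mt.ext fun p q => ?_
      rcases p with p | p <;> rcases q with q | q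
      · show algebraMap ℂ (Unitization ℂ C₀(ℝ, E)) (if p = q then b.fst else 0) =
          (Unitization.starLift (c m) b : Mt (Fin 2) (Unitization ℂ C₀(ℝ, E))) p q
        rw [Pool.Agent.Helper64.CAR.starLift_val, hcm, add_zero, Mt.algebraMap_apply]
        by_cases h : p = q
        · rw [if_pos h, if_pos h]
        · rw [if_neg h, if_neg h, map_zero]
      · show algebraMap ℂ (Unitization ℂ C₀(ℝ, E)) 0 = 0
        rw [map_zero]
      · show algebraMap ℂ (Unitization ℂ C₀(ℝ, E)) 0 = 0
        rw [map_zero]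
      · rfl
    rw [e2]
    exact h3

end Pool.Agent.Helper30.CF2.SML
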